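import Pool.Agent.Helper3.AK.Goals3

/-!
# Packet AK-UR: near uniformity of a long lazy word on short tuples
-/

namespace Pool.Agent.Helper67.AK

open Equiv Pool.Agent.Helper3.AK

variable {n r k : ℕ}

theorem ip_comm (φ ψ : Fn n r) : ip φ ψ = ip ψ φ := by
  unfold ip
  exact Finset.sum_congr rfl fun a _ => mul_comm _ _

theorem ip_add_left (φ φ' ψ : Fn n r) : ip (φ + φ') ψ = ip φ ψ + ip φ' ψ := by
  unfold ip
  rw [← Finset.sum_add_distrib]
  exact Finset.sum_congr rfl fun a _ => by rw [Pi.add_apply]; ring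

theorem ip_smul_left (c : ℝ) (φ ψ : Fn n r) : ip (c • φ) ψ = c * ip φ ψ := by
  unfold ip
  rw [Finset.mul_sum]
  exact Finset.sum_congr rfl fun a _ => by rw [Pi.smul_apply, smul_eq_mul]; ring

theorem ip_add_right (φ ψ ψ' : Fn n r) : ip φ (ψ + ψ') = ip φ ψ + ip φ ψ' := by
  rw [ip_comm, ip_add_left, ip_comm ψ, ip_comm ψ']

theorem ip_smul_right (c : ℝ) (φ ψ : Fn n r) : ip φ (c • ψ) = c * ip φ ψ := by
  rw [ip_comm, ip_smul_left, ip_comm ψ]

theorem ip_sub_left (φ φ' ψ : Fn n r) : ip (φ - φ') ψ = ip φ ψ - ip φ' ψ := by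
  unfold ip
  rw [← Finset.sum_sub_distrib]
  exact Finset.sum_congr rfl fun a _ => by rw [Pi.sub_apply]; ring

theorem ip_sub_right (φ ψ ψ' : Fn n r) : ip φ (ψ - ψ') = ip φ ψ - ip φ ψ' := by
  rw [ip_comm, ip_sub_left, ip_comm ψ, ip_comm ψ']

theorem ip_sum_right {ι : Type*} (s : Finset ι) (φ : Fn n r) (ψ : ι → Fn n r) :
    ip φ (∑ i ∈ s, ψ i) = ∑ i ∈ s, ip φ (ψ i) := by
  classical
  induction s using Finset.induction_on with
  | empty => simp [ip]
  | insert i s hi ih => rw [Finset.sum_insert hi, Finset.sum_insert hi, ip_add_right, ih]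

theorem ip_sum_left {ι : Type*} (s : Finset ι) (φ : Fn n r) (ψ : ι → Fn n r) :
    ip (∑ i ∈ s, ψ i) φ = ∑ i ∈ s, ip (ψ i) φ := by
  rw [ip_comm, ip_sum_right]
  exact Finset.sum_congr rfl fun i _ => ip_comm _ _

theorem ip_self_nonneg (φ : Fn n r) : 0 ≤ ip φ φ :=
  Finset.sum_nonneg fun a _ => mul_self_nonneg _

/-- the permutation of the tuples -/
def tupEquiv (g : Perm (Fin n)) : (Fin r ↪ Fin n) ≃ (Fin r ↪ Fin n) where
  toFun a := a.trans g.toEmbedding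
  invFun a := a.trans (g⁻¹).toEmbedding
  left_inv _ := by ext i; simp
  right_inv _ := by ext i; simp

theorem sum_Act (g : Perm (Fin n)) (φ : Fn n r) : ∑ a, Act g φ a = ∑ a, φ a :=
  Equiv.sum_comp (tupEquiv (r := r) g) φ

theorem ip_Act_Act (g : Perm (Fin n)) (φ ψ : Fn n r) : ip (Act g φ) (Act g ψ) = ip φ ψ :=
  Equiv.sum_comp (tupEquiv (r := r) g) (fun a => φ a * ψ a)

theorem ip_Act_right (g : Perm (Fin n)) (φ ψ : Fn n r) :
    ip φ (Act g ψ) = ip (Act g⁻¹ φ) ψ := by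
  rw [← ip_Act_Act g⁻¹ φ (Act g ψ)]
  have : Act g⁻¹ (Act g ψ) = ψ := by
    have h := Act_mul (n := n) (r := r) g g⁻¹
    rw [mul_inv_cancel, Act_one] at h
    have h2 := congrArg (fun F : Fn n r →ₗ[ℝ] Fn n r => F ψ) h
    simpa using h2.symm
  rw [this]

theorem ip_Act_ge (g : Perm (Fin n)) (φ : Fn n r) : - ip φ φ ≤ ip φ (Act g φ) := by
  have h := ip_self_nonneg (φ + Act g φ)
  rw [ip_add_left, ip_add_right, ip_add_right, ip_Act_Act, ip_comm (Act g φ) φ] at h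
  linarith

theorem Wk_apply (z : Fin k → Alt n) (φ : Fn n r) :
    Wk z φ = (2 * (k : ℝ))⁻¹ • ∑ i, (Act (z i : Perm (Fin n)) φ +
      Act ((z i : Perm (Fin n))⁻¹) φ) := by
  simp only [Wk, LinearMap.smul_apply, LinearMap.sum_apply, LinearMap.add_apply]

theorem ip_Wk (z : Fin k → Alt n) (φ ψ : Fn n r) : ip φ (Wk z ψ) = ip (Wk z φ) ψ := by
  rw [Wk_apply, Wk_apply, ip_smul_right, ip_smul_left, ip_sum_right, ip_sum_left]
  congr 1
  refine Finset.sum_congr rfl fun i _ => ?_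
  rw [ip_add_right, ip_add_left, ip_Act_right, ip_Act_right, inv_inv, add_comm]

theorem sum_Wk (z : Fin k → Alt n) (φ : Fn n r) (h : ∑ a, φ a = 0) : ∑ a, Wk z φ a = 0 := by
  rw [Wk_apply]
  simp only [Pi.smul_apply, Finset.sum_apply, Pi.add_apply, smul_eq_mul]
  rw [← Finset.mul_sum, Finset.sum_comm]
  have : ∀ i, ∑ a, (Act (z i : Perm (Fin n)) φ a + Act ((z i : Perm (Fin n))⁻¹) φ a) = 0 := by
    intro i
    rw [Finset.sum_add_distrib, sum_Act, sum_Act, h, add_zero]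
  rw [Finset.sum_congr rfl fun i _ => this i]
  simp

theorem Lz_apply (z : Fin k → Alt n) (φ : Fn n r) :
    Lz z φ = (1 / 2 : ℝ) • (φ + Wk z φ) := by
  simp only [Lz, LinearMap.smul_apply, LinearMap.add_apply, LinearMap.id_apply]

theorem ip_Lz (z : Fin k → Alt n) (φ ψ : Fn n r) : ip φ (Lz z ψ) = ip (Lz z φ) ψ := by
  rw [Lz_apply, Lz_apply, ip_smul_right, ip_smul_left, ip_add_right, ip_add_left, ip_Wk]

theorem sum_Lz (z : Fin k → Alt n) (φ : Fn n r) (h : ∑ a, φ a = 0) : ∑ a, Lz z φ a = 0 := by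
  rw [Lz_apply]
  simp only [Pi.smul_apply, Pi.add_apply, smul_eq_mul]
  rw [← Finset.mul_sum, Finset.sum_add_distrib, h, sum_Wk z φ h]
  simp

theorem ip_Wk_ge (z : Fin k → Alt n) (hk : 1 ≤ k) (φ : Fn n r) : - ip φ φ ≤ ip φ (Wk z φ) := by
  rw [Wk_apply, ip_smul_right, ip_sum_right]
  have hk' : (0 : ℝ) < 2 * k := by
    have : (1 : ℝ) ≤ k := by exact_mod_cast hk
    linarith
  have h1 : ∑ _i : Fin k, (-2 * ip φ φ) ≤ ∑ i : Fin k,
      ip φ (Act (z i : Perm (Fin n)) φ + Act ((z i : Perm (Fin n))⁻¹) φ) := by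
    refine Finset.sum_le_sum fun i _ => ?_
    rw [ip_add_right]
    have h1 := ip_Act_ge (z i : Perm (Fin n)) φ
    have h2 := ip_Act_ge ((z i : Perm (Fin n))⁻¹) φ
    linarith
  rw [Finset.sum_const, Finset.card_univ, Fintype.card_fin, nsmul_eq_mul] at h1
  have h2 := mul_le_mul_of_nonneg_left h1 (inv_nonneg.mpr hk'.le)
  calc - ip φ φ = (2 * (k : ℝ))⁻¹ * (k * (-2 * ip φ φ)) := by
        have : (k : ℝ) ≠ 0 := by
          intro h0; rw [h0] at hk'; simp at hk'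
        field_simp
    _ ≤ _ := h2

theorem ip_Lz_nonneg (z : Fin k → Alt n) (hk : 1 ≤ k) (φ : Fn n r) : 0 ≤ ip φ (Lz z φ) := by
  rw [Lz_apply, ip_smul_right, ip_add_right]
  have := ip_Wk_ge z hk φ
  linarith

theorem ip_Lz_le (z : Fin k → Alt n) {ε : ℝ} (hg : TupleGap z r ε) (φ : Fn n r)
    (h0 : ∑ a, φ a = 0) : ip φ (Lz z φ) ≤ (1 - ε / 2) * ip φ φ := by
  rw [Lz_apply, ip_smul_right, ip_add_right]
  have h := hg φ h0
  rw [← Wk_eq] at h
  have h2 : ∑ a, φ a ^ 2 = ip φ φ := Finset.sum_congr rfl fun a _ => by ring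
  rw [h2] at h
  change ip φ (Wk z φ) ≤ _ at h
  linarith

theorem ip_Lz_Lz_le (z : Fin k → Alt n) (hk : 1 ≤ k) {ε : ℝ} (h1 : ε ≤ 1)
    (hg : TupleGap z r ε) (φ : Fn n r) (h0 : ∑ a, φ a = 0) :
    ip (Lz z φ) (Lz z φ) ≤ (1 - ε / 2) ^ 2 * ip φ φ := by
  set c : ℝ := 1 - ε / 2 with hc
  have hc0 : 0 < c := by rw [hc]; linarith
  set u := Lz z φ with hu
  have hB1 : ip φ u ≤ c * ip φ φ := ip_Lz_le z hg φ h0
  have hB2 : ip u (Lz z u) ≤ c * ip u u := ip_Lz_le z hg u (sum_Lz z φ h0)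
  have hB3 := ip_Lz_nonneg z hk (c • φ - u)
  have hsym : ip φ (Lz z u) = ip u u := by rw [ip_Lz]
  rw [map_sub, map_smul, ← hu, ip_sub_right, ip_sub_left, ip_sub_left, ip_smul_right,
    ip_smul_right, ip_smul_left, ip_smul_left, hsym] at hB3
  -- c * (c * ip φ u) - c * ip u u - (c * ip u u - ip u (L u)) ≥ 0
  have h3 : c * ip u u ≤ c * (c * ip φ u) := by linarith
  have h4 : ip u u ≤ c * ip φ u := le_of_mul_le_mul_left h3 hc0
  have h5 : c * ip φ u ≤ c * (c * ip φ φ) := mul_le_mul_of_nonneg_left hB1 hc0.le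
  calc ip u u ≤ c * ip φ u := h4
    _ ≤ c * (c * ip φ φ) := h5
    _ = c ^ 2 * ip φ φ := by ring

theorem Lz_pow_bound (z : Fin k → Alt n) (hk : 1 ≤ k) {ε : ℝ} (h1 : ε ≤ 1)
    (hg : TupleGap z r ε) (m : ℕ) (φ : Fn n r) (h0 : ∑ a, φ a = 0) :
    ∑ a, (Lz z ^ m) φ a = 0 ∧
    ip ((Lz z ^ m) φ) ((Lz z ^ m) φ) ≤ ((1 - ε / 2) ^ m) ^ 2 * ip φ φ := by
  induction m with
  | zero => simpa using h0
  | succ m ih =>
    obtain ⟨ih1, ih2⟩ := ih
    rw [pow_succ' (Lz z), Module.End.mul_apply]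
    refine ⟨sum_Lz z _ ih1, ?_⟩
    refine (ip_Lz_Lz_le z hk h1 hg _ ih1).trans ?_
    refine (mul_le_mul_of_nonneg_left ih2 (sq_nonneg _)).trans (le_of_eq ?_)
    ring

theorem Act_const (g : Perm (Fin n)) (c : ℝ) : Act g (fun _ => c : Fn n r) = fun _ => c := rfl

theorem Lz_const (z : Fin k → Alt n) (hk : 1 ≤ k) (c : ℝ) :
    Lz z (fun _ => c : Fn n r) = fun _ => c := by
  have hk' : (k : ℝ) ≠ 0 := by
    have : (1 : ℝ) ≤ k := by exact_mod_cast hk
    intro h; rw [h] at this; linarith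
  have h2 : Wk z (fun _ => c : Fn n r) = fun _ => c := by
    rw [Wk_apply]
    funext a
    simp only [Act_const]
    rw [Pi.smul_apply, Finset.sum_apply, smul_eq_mul]
    simp only [Pi.add_apply]
    rw [Finset.sum_const, Finset.card_univ, Fintype.card_fin, nsmul_eq_mul]
    field_simp
    ring
  rw [Lz_apply, h2]
  funext a
  simp only [Pi.smul_apply, Pi.add_apply, smul_eq_mul]
  ring

theorem Lz_pow_const (z : Fin k → Alt n) (hk : 1 ≤ k) (m : ℕ) (c : ℝ) :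
    (Lz z ^ m) (fun _ => c : Fn n r) = fun _ => c := by
  induction m with
  | zero => rfl
  | succ m ih => rw [pow_succ', Module.End.mul_apply, ih, Lz_const z hk]

theorem descFactorial_mono {n j R : ℕ} (hj : j ≤ R) (hR : R ≤ n) :
    n.descFactorial j ≤ n.descFactorial R := by
  induction R, hj using Nat.le_induction with
  | base => exact le_rfl
  | succ R hjR ih =>
    refine (ih (by omega)).trans ?_
    rw [Nat.descFactorial_succ]
    exact Nat.le_mul_of_pos_left _ (by omega)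

theorem ur (h : S_LZ) : S_UR := by
  intro n k R m z ε hk hR hε hε1 hgap hm
  classical
  refine ⟨(h n k R m z hk).2.1, (h n k R m z hk).2.2, ?_⟩
  intro j hj a b
  have hAvg := (h n k j m z hk).1
  set N : ℕ := n.descFactorial j with hN
  have hcard : Fintype.card (Fin j ↪ Fin n) = N := by
    rw [Fintype.card_embedding_eq, Fintype.card_fin, Fintype.card_fin]
  have hNpos : 0 < N := by
    rw [hN]; exact Nat.descFactorial_pos.mpr (by omega)
  have hNR : (0 : ℝ) < N := by exact_mod_cast hNpos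
  set δ : Fn n j := fun c => if c = b then 1 else 0 with hδ
  set ψ : Fn n j := δ - (fun _ => (N : ℝ)⁻¹) with hψ
  have hψsum : ∑ c, ψ c = 0 := by
    have h1 : ∑ c, δ c = 1 := by
      rw [hδ]; simp
    rw [hψ]
    simp only [Pi.sub_apply]
    rw [Finset.sum_sub_distrib, h1, Finset.sum_const, Finset.card_univ, hcard, nsmul_eq_mul,
      mul_inv_cancel₀ hNR.ne', sub_self]
  have hψip : ip ψ ψ ≤ 1 := by
    have h1 : ip δ δ = 1 := by
      unfold ip
      rw [hδ]; simp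
    have h2 : ip δ (fun _ => (N : ℝ)⁻¹) = (N : ℝ)⁻¹ := by
      unfold ip
      rw [hδ]; simp
    have h3 : ip (fun _ => (N : ℝ)⁻¹ : Fn n j) (fun _ => (N : ℝ)⁻¹) = (N : ℝ)⁻¹ := by
      unfold ip
      rw [Finset.sum_const, Finset.card_univ, hcard, nsmul_eq_mul, ← mul_assoc,
        mul_inv_cancel₀ hNR.ne', one_mul]
    rw [hψ, ip_sub_left, ip_sub_right, ip_sub_right, ip_comm (fun _ => (N : ℝ)⁻¹) δ, h1, h2, h3]
    have : 0 < (N : ℝ)⁻¹ := inv_pos.mpr hNR
    linarith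
  -- the sum is a value of the average
  have hsum : ∑ g ∈ Finset.univ.filter (fun g : Perm (Fin n) => ∀ i, g (a i) = b i),
      lazyLaw z m g = (Avg (lazyLaw z m) : Fn n j →ₗ[ℝ] Fn n j) δ a := by
    rw [Avg_apply, Finset.sum_filter]
    refine Finset.sum_congr rfl fun g _ => ?_
    have : (a.trans g.toEmbedding = b) ↔ (∀ i, g (a i) = b i) := by
      constructor
      · intro h i
        rw [← h]; rfl
      · intro h
        ext i
        exact congrArg Fin.val (h i)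
    rw [hδ]
    simp only [this]
    split_ifs <;> simp
  rw [hsum, hAvg]
  have hdec : δ = ψ + (fun _ => (N : ℝ)⁻¹) := by rw [hψ]; simp
  have hval : (Lz z ^ m) δ a = (Lz z ^ m) ψ a + (N : ℝ)⁻¹ := by
    conv_lhs => rw [hdec]
    rw [map_add, Lz_pow_const z hk, Pi.add_apply]
  rw [hval]
  obtain ⟨-, hb⟩ := Lz_pow_bound z hk hε1 (hgap j hj) m ψ hψsum
  set v := (Lz z ^ m) ψ with hv
  have hc0 : 0 ≤ (1 - ε / 2) ^ m := pow_nonneg (by linarith) m
  have h1 : v a ^ 2 ≤ ip v v := by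
    unfold ip
    have := Finset.single_le_sum (f := fun c => v c * v c) (fun c _ => mul_self_nonneg _)
      (Finset.mem_univ a)
    simpa [sq] using this
  have h2 : v a ^ 2 ≤ ((1 - ε / 2) ^ m) ^ 2 := by
    refine h1.trans (hb.trans ?_)
    exact mul_le_of_le_one_right (sq_nonneg _) hψip
  have h3 : v a ≤ (1 - ε / 2) ^ m := (abs_le_of_sq_le_sq' h2 hc0).2
  have h4 : (1 - ε / 2) ^ m ≤ (N : ℝ)⁻¹ := by
    refine hm.trans ?_
    rw [one_div]
    exact inv_anti₀ hNR (by exact_mod_cast descFactorial_mono hj hR)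
  have h5 : (2 : ℝ) / N = (N : ℝ)⁻¹ + (N : ℝ)⁻¹ := by
    rw [div_eq_mul_inv]; ring
  rw [h5]
  linarith

end Pool.Agent.Helper67.AK
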