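import Pool.Agent.Helper3.AK.Goals4
import Pool.Agent.Helper67.AK.UR

/-!
# Packet AK-RW: powers of the walk operator in terms of reduced words
-/

namespace Pool.Agent.Helper67.AK

open Equiv Pool.Agent.Helper3.AK

variable {n r : ℕ}

/-- the coefficients of the birth and death recursion -/
noncomputable def cf : ℕ → ℕ → ℝ
  | 0 => fun j => if j = 0 then 1 else 0
  | N + 1 => fun j => (if 2 ≤ j then 3 / 4 * cf N (j - 1) else 0) +
      (if j = 1 then cf N 0 else 0) + 1 / 4 * cf N (j + 1)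

/-- the transposed recursion -/
noncomputable def Tr (f : ℕ → ℝ) (j : ℕ) : ℝ :=
  if j = 0 then f 1 else 3 / 4 * f (j + 1) + 1 / 4 * f (j - 1)

theorem cf_nonneg (N j : ℕ) : 0 ≤ cf N j := by
  induction N generalizing j with
  | zero => unfold cf; split_ifs <;> norm_num
  | succ N ih =>
    unfold cf
    have h1 := ih (j - 1)
    have h2 := ih 0
    have h3 := ih (j + 1)
    split_ifs <;> linarith

theorem cf_zero_of_lt (N j : ℕ) (h : N < j) : cf N j = 0 := by
  induction N generalizing j with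
  | zero => unfold cf; rw [if_neg (by omega)]
  | succ N ih =>
    unfold cf
    rw [if_pos (by omega), if_neg (by omega), ih (j - 1) (by omega), ih (j + 1) (by omega)]
    ring

theorem sum_cf_succ (N : ℕ) (f : ℕ → ℝ) :
    ∑ j ∈ Finset.range (N + 2), cf (N + 1) j * f j =
      ∑ j ∈ Finset.range (N + 1), cf N j * Tr f j := by
  have h1 : ∑ j ∈ Finset.range (N + 2), (if 2 ≤ j then 3 / 4 * cf N (j - 1) else 0) * f j =
      ∑ j ∈ Finset.range (N + 1), cf N j * (if j = 0 then 0 else 3 / 4 * f (j + 1)) := by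
    rw [Finset.sum_range_succ']
    rw [if_neg (by omega), zero_mul, add_zero]
    refine Finset.sum_congr rfl fun j _ => ?_
    by_cases hj : j = 0
    · subst hj; simp
    · rw [if_pos (by omega), if_neg hj, Nat.add_sub_cancel]; ring
  have h2 : ∑ j ∈ Finset.range (N + 2), (if j = 1 then cf N 0 else 0) * f j =
      ∑ j ∈ Finset.range (N + 1), cf N j * (if j = 0 then f 1 else 0) := by
    rw [Finset.sum_eq_single 1, Finset.sum_eq_single 0]
    · simp
    · intro b _ hb; rw [if_neg hb, mul_zero]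
    · intro h; exact absurd (Finset.mem_range.2 (by omega)) h
    · intro b _ hb; rw [if_neg hb, zero_mul]
    · intro h; exact absurd (Finset.mem_range.2 (by omega)) h
  have h3 : ∑ j ∈ Finset.range (N + 2), (1 / 4 * cf N (j + 1)) * f j =
      ∑ j ∈ Finset.range (N + 1), cf N j * (if j = 0 then 0 else 1 / 4 * f (j - 1)) := by
    rw [Finset.sum_range_succ' _ N, if_pos rfl, mul_zero, add_zero]
    rw [Finset.sum_range_succ, Finset.sum_range_succ, cf_zero_of_lt N (N + 1 + 1) (by omega),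
      cf_zero_of_lt N (N + 1) (by omega)]
    simp only [mul_zero, zero_mul, add_zero]
    refine Finset.sum_congr rfl fun j _ => ?_
    rw [if_neg (by omega), Nat.add_sub_cancel]; ring
  have h4 : ∀ j, cf (N + 1) j * f j = (if 2 ≤ j then 3 / 4 * cf N (j - 1) else 0) * f j +
      (if j = 1 then cf N 0 else 0) * f j + (1 / 4 * cf N (j + 1)) * f j := by
    intro j
    show ((if 2 ≤ j then 3 / 4 * cf N (j - 1) else 0) +
      (if j = 1 then cf N 0 else 0) + 1 / 4 * cf N (j + 1)) * f j = _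
    ring
  rw [Finset.sum_congr rfl fun j _ => h4 j, Finset.sum_add_distrib, Finset.sum_add_distrib,
    h1, h2, h3, ← Finset.sum_add_distrib, ← Finset.sum_add_distrib]
  refine Finset.sum_congr rfl fun j _ => ?_
  unfold Tr
  split_ifs <;> ring

theorem sum_cf_one (N : ℕ) : ∑ j ∈ Finset.range (N + 1), cf N j = 1 := by
  induction N with
  | zero => simp [cf]
  | succ N ih =>
    have h := sum_cf_succ N (fun _ => 1)
    simp only [mul_one] at h
    rw [h]
    refine Eq.trans (Finset.sum_congr rfl fun j _ => ?_) ih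
    unfold Tr
    split_ifs
    · ring
    · ring

theorem sqrt3_bounds : (0 : ℝ) < √3 ∧ √3 * √3 = 3 :=
  ⟨Real.sqrt_pos.2 (by norm_num), Real.mul_self_sqrt (by norm_num)⟩

theorem Tr_theta (j : ℕ) : Tr (fun j => (1 / √3) ^ j) j ≤ (√3 / 2) * (1 / √3) ^ j := by
  obtain ⟨hs0, hs⟩ := sqrt3_bounds
  have hθ : (1 : ℝ) / √3 = √3 / 3 := by
    rw [div_eq_div_iff hs0.ne' (by norm_num)]; linarith
  unfold Tr
  split_ifs with h
  · subst h
    rw [hθ]
    norm_num
    linarith
  · obtain ⟨i, rfl⟩ := Nat.exists_eq_succ_of_ne_zero h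
    rw [hθ]
    simp only [Nat.succ_eq_add_one, Nat.add_sub_cancel]
    have e1 : (√3 / 3) ^ (i + 1 + 1) = (√3 / 3) ^ i * (1 / 3) := by
      rw [pow_succ, pow_succ, mul_assoc]
      congr 1
      nlinarith
    have e2 : (√3 / 3) ^ (i + 1) = (√3 / 3) ^ i * (√3 / 3) := pow_succ _ _
    rw [e1, e2]
    have h0 : 0 ≤ (√3 / 3) ^ i := by positivity
    have : √3 / 2 * ((√3 / 3) ^ i * (√3 / 3)) = (√3 / 3) ^ i * (1 / 2) := by
      calc √3 / 2 * ((√3 / 3) ^ i * (√3 / 3)) = (√3 / 3) ^ i * ((√3 * √3) / 6) := by ring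
        _ = _ := by rw [hs]; ring
    rw [this]
    apply le_of_eq
    ring

theorem sum_cf_theta (N : ℕ) :
    ∑ j ∈ Finset.range (N + 1), cf N j * (1 / √3) ^ j ≤ (√3 / 2) ^ N := by
  induction N with
  | zero => simp [cf]
  | succ N ih =>
    have hs0 := sqrt3_bounds.1
    rw [sum_cf_succ N (fun j => (1 / √3) ^ j)]
    calc ∑ j ∈ Finset.range (N + 1), cf N j * Tr (fun j => (1 / √3) ^ j) j
        ≤ ∑ j ∈ Finset.range (N + 1), (√3 / 2) * (cf N j * (1 / √3) ^ j) := by
          refine Finset.sum_le_sum fun j _ => ?_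
          refine (mul_le_mul_of_nonneg_left (Tr_theta j) (cf_nonneg N j)).trans (le_of_eq ?_)
          ring
      _ = (√3 / 2) * ∑ j ∈ Finset.range (N + 1), cf N j * (1 / √3) ^ j := by
          rw [Finset.mul_sum]
      _ ≤ (√3 / 2) * (√3 / 2) ^ N := mul_le_mul_of_nonneg_left ih (by positivity)
      _ = (√3 / 2) ^ (N + 1) := by rw [pow_succ]; ring

theorem Wk_letters (z : Fin 2 → Alt n) (ψ : Fn n r) :
    Wk z ψ = (1 / 4 : ℝ) • ∑ l : Letter 2, Act (lett z l) ψ := by
  rw [Wk_apply, Fintype.sum_prod_type]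
  have h : ∀ i : Fin 2, ∑ b : Bool, Act (lett z (i, b)) ψ =
      Act (z i : Perm (Fin n)) ψ + Act ((z i : Perm (Fin n))⁻¹) ψ := by
    intro i
    rw [Fintype.sum_bool, add_comm]
    rfl
  rw [Finset.sum_congr rfl fun i _ => h i]
  norm_num

/-- the average over reduced words of length `j` -/
noncomputable def Aj (z : Fin 2 → Alt n) (φ ψ : Fn n r) (j : ℕ) : ℝ :=
  ER j [] (fun w => ip φ (Act (pz z (gl w) j) ψ))

theorem Act_Act (g h : Perm (Fin n)) (ψ : Fn n r) : Act g (Act h ψ) = Act (h * g) ψ := by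
  rw [Act_mul]; rfl

theorem ip_Act_Wk (z : Fin 2 → Alt n) (φ ψ : Fn n r) (g : Perm (Fin n)) :
    ip φ (Act g (Wk z ψ)) = 1 / 4 * ∑ l : Letter 2, ip φ (Act (lett z l * g) ψ) := by
  rw [Wk_letters, map_smul, map_sum, ip_smul_right, ip_sum_right]
  congr 1

theorem pz_snoc (z : Fin 2 → Alt n) (w : List (Letter 2)) (l : Letter 2) :
    pz z (gl (w ++ [l])) (w.length + 1) = lett z l * pz z (gl w) w.length := by
  show lett z (gl (w ++ [l]) w.length) * pz z (gl (w ++ [l])) w.length = _
  have h1 : gl (w ++ [l]) w.length = l := by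
    unfold gl
    rw [List.getD_append_right _ _ _ _ (le_refl _)]
    simp
  have h2 : pz z (gl (w ++ [l])) w.length = pz z (gl w) w.length :=
    pz_congr fun s hs => gl_prefix (List.prefix_append _ _) hs
  rw [h1, h2]

theorem Aj_zero (z : Fin 2 → Alt n) (φ ψ : Fn n r) : Aj z φ (Wk z ψ) 0 = Aj z φ ψ 1 := by
  unfold Aj
  rw [er_zero, er_succ, ip_Act_Wk, nxt_nil]
  have h4 : ((Finset.univ : Finset (Letter 2)).card : ℝ)⁻¹ = 1 / 4 := by
    rw [Finset.card_univ]
    norm_num [Fintype.card_prod]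
  rw [h4]
  congr 1

theorem er_drop (z : Fin 2 → Alt n) (φ ψ : Fn n r) (m : ℕ) :
    ER (m + 1) [] (fun w => ip φ (Act (pz z (gl w) m) ψ)) = Aj z φ ψ m := by
  unfold Aj
  rw [er_comp]
  refine er_congr m [] redL_nil _ _ fun v _ hlen _ => ?_
  simp only [List.length_nil, zero_add] at hlen
  rw [er_succ]
  have h : ∀ l ∈ nxt v, ER 0 (v ++ [l]) (fun w => ip φ (Act (pz z (gl w) m) ψ)) =
      ip φ (Act (pz z (gl v) m) ψ) := by
    intro l _
    rw [er_zero, pz_congr (g := gl (v ++ [l])) (g' := gl v)]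
    intro s hs
    exact gl_prefix (List.prefix_append _ _) (by omega)
  rw [Finset.sum_congr rfl h, Finset.sum_const, nsmul_eq_mul, ← mul_assoc,
    inv_mul_cancel₀ (nxt_card_ne v), one_mul]

theorem Aj_succ (z : Fin 2 → Alt n) (φ ψ : Fn n r) (m : ℕ) :
    Aj z φ (Wk z ψ) (m + 1) = 3 / 4 * Aj z φ ψ (m + 2) + 1 / 4 * Aj z φ ψ m := by
  have h1 : Aj z φ ψ (m + 2) = ER (m + 1) [] (fun v => ER 1 v
      (fun w => ip φ (Act (pz z (gl w) (m + 2)) ψ))) := by
    unfold Aj
    rw [← er_comp]
  rw [h1, ← er_drop z φ ψ m, ← er_mul, ← er_mul, ← er_add]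
  unfold Aj
  refine er_congr (m + 1) [] redL_nil _ _ fun w _ hlen _ => ?_
  simp only [List.length_nil, zero_add] at hlen
  rw [ip_Act_Wk]
  have hne : w ≠ [] := by
    intro h; rw [h] at hlen; simp at hlen
  obtain h | ⟨v, a, h⟩ := List.eq_nil_or_concat w
  · exact absurd h hne
  have hw : w = v ++ [a] := by rw [h, List.concat_eq_append]
  have hv : v.length = m := by
    rw [hw, List.length_append] at hlen
    simpa using hlen
  have hpz : lett z (flip a) * pz z (gl w) (m + 1) = pz z (gl w) m := by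
    have hg : gl w m = a := by
      unfold gl
      rw [hw, List.getD_append_right _ _ _ _ (by omega), hv]
      simp
    show lett z (flip a) * (lett z (gl w m) * pz z (gl w) m) = _
    rw [hg, lett_flip, inv_mul_cancel_left]
  have hnx : nxt w = Finset.univ.erase (flip a) := by rw [hw, nxt_append]
  have hE : ER 1 w (fun w => ip φ (Act (pz z (gl w) (m + 2)) ψ)) =
      1 / 3 * ∑ l ∈ Finset.univ.erase (flip a), ip φ (Act (lett z l * pz z (gl w) (m + 1)) ψ) := by
    rw [er_succ, nxt_card w hne, hnx]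
    congr 1
    · norm_num
    · refine Finset.sum_congr rfl fun l _ => ?_
      rw [er_zero]
      have := pz_snoc z w l
      rw [hlen] at this
      rw [this]
  rw [hE, ← Finset.add_sum_erase Finset.univ _ (Finset.mem_univ (Helper3.AK.flip a)), hpz]
  ring

theorem rw : S_RW := by
  intro N
  refine ⟨cf N, cf_nonneg N, sum_cf_one N, sum_cf_theta N, ?_⟩
  intro n r z φ ψ
  have key : ∀ (N : ℕ) (ψ : Fn n r), ip φ ((Wk z ^ N) ψ) =
      ∑ j ∈ Finset.range (N + 1), cf N j * Aj z φ ψ j := by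
    intro N
    induction N with
    | zero =>
      intro ψ
      simp only [pow_zero, zero_add, Finset.range_one, Finset.sum_singleton, cf, if_true, one_mul]
      unfold Aj
      rw [er_zero]
      rfl
    | succ N ih =>
      intro ψ
      rw [pow_succ, Module.End.mul_apply, ih, sum_cf_succ]
      refine Finset.sum_congr rfl fun j _ => ?_
      congr 1
      unfold Tr
      split_ifs with hj
      · subst hj; exact Aj_zero z φ ψ
      · obtain ⟨i, rfl⟩ := Nat.exists_eq_succ_of_ne_zero hj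
        exact Aj_succ z φ ψ i
  exact key N ψ

end Pool.Agent.Helper67.AK
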